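import Pool.Agent.Q39.RH.Five2
import Pool.Agent.Q39.RH.Tab7
import Pool.Agent.Q39.RH.Tab9
import Pool.Agent.Q39.RH.Tab11

/-!
# MP_fbee77_co, Q1: the flip graph of the 2-subsets of five points is not a union of three
edge-disjoint rainbow Hamilton cycles

The edge set of `G_{5,2}` cannot be partitioned into `3` pairwise edge-disjoint rainbow Hamilton
cycles, so such a factorization does not exist for every odd `n ≥ 5`. For `n = 7`, `n = 9` and
`n = 11` there is a partition of the edge set of `G_{n,2}` into `n - 2` rainbow Hamilton cycles; the
cycles are the images of one cycle under the rotations of `n - 2` of the points.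

`HasFactorization n` is defined in `Pool/Agent/Q39/RH/Defs.lean`: there are `n - 2` rainbow Hamilton
cycles such that each edge `{A, B}` of `G_{n,2}` is an edge of exactly one of them.
-/

set_option autoImplicit false

namespace Pool.Agent.Results.MP_fbee77_co.FiveFails

open Pool.Agent.Q39.RH

/-- **Main theorem.** The case `n = 5` is an exception, the cases `n = 7, 9, 11` are not. -/
theorem result : ¬ HasFactorization 5 ∧ HasFactorization 7 ∧ HasFactorization 9 ∧
    HasFactorization 11 :=
  ⟨not_five, fact7, fact9, fact11⟩

end Pool.Agent.Results.MP_fbee77_co.FiveFails
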